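import Pool.Agent.Helper32.FR.Defs
import Pool.Agent.Helper64.BA.Encode
import Pool.Agent.Helper29.BA.CndCCC

/-!
# Project FR, module C4: small families of names appear at a stage below the top
-/

set_option autoImplicit false
set_option linter.unusedSectionVars false

namespace Pool.Agent.Helper32.FR

open Pool.Agent.Helper33.HM Pool.Agent.Helper94.BA

variable {P₀ : Type 1} [Preorder P₀]

theorem h68_lt_ordinal (p : Raw P₀ II) (h : p.lt ⊤) : ∃ β : Ordinal.{0}, p.lt (β : II) := by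
  cases p with
  | nil a => exact ⟨0, trivial⟩
  | cons p i s m f v =>
    have hi : i < ⊤ := h
    obtain ⟨β, rfl⟩ := WithTop.ne_top_iff_exists.1 hi.ne
    exact ⟨Order.succ β, show ((β : II) < (Order.succ β : Ordinal.{0})) from
      WithTop.coe_lt_coe.2 (Order.lt_succ β)⟩

theorem exists_names {F : II → Set (Name P₀ II)} (h₀ : AC P₀) (hne : Nonempty P₀) {ι : Type}
    (y : ι → ℕ → RO (Cnd F (⊤ : II))) :
    ∃ (α : Ordinal.{0}) (Y : ι → Name P₀ II), ∀ j, Y j ∈ VN F (α : II) ∧ valN (Y j) = y j := by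
  have hac : AC (Cnd F (⊤ : II)) := cnd_ac h₀
  obtain ⟨a⟩ := hne
  have hne' : Nonempty (Cnd F (⊤ : II)) := ⟨⟨Raw.nil a, trivial, trivial⟩⟩
  choose Y hY hv using fun j => exists_name hac hne' (y j)
  choose β hβ using fun (x : ι × ℕ × ℕ) =>
    h68_lt_ordinal ((Y x.1).1 x.2.1 x.2.2) (hY x.1 x.2.1 x.2.2).2
  obtain ⟨α, hα⟩ := Ordinal.bddAbove_of_small (s := Set.range β)
  refine ⟨α, Y, fun j => ⟨fun n k => ⟨(hY j n k).1, ?_⟩, hv j⟩⟩
  exact Raw.lt_mono (WithTop.coe_le_coe.2 (hα ⟨(j, n, k), rfl⟩)) (hβ (j, n, k))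

end Pool.Agent.Helper32.FR
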