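import Pool.Agent.Helper32.FR.Defs
import Pool.Agent.Helper82.BA.Coding

/-!
# Project FR, module D2: codes of strictly increasing functions
-/

set_option autoImplicit false
set_option linter.unusedSectionVars false

namespace Pool.Agent.Helper32.FR

open Pool.Agent.Helper33.HM Pool.Agent.Helper94.BA

universe u

section D

variable {B : Type u} [CompleteBooleanAlgebra B]

/-- The name of the function `f(0) + 1 + r, f(0) + f(1) + 2 + r, …`. -/
def h68_h (D : ℕ → ℕ → B) (r : ℕ) : ℕ → ℕ → B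
  | 0, k => ⨆ i : ℕ, ⨆ _ : i + 1 + r ≤ k, D 0 i
  | n + 1, k => ⨆ i : ℕ, ⨆ j : ℕ, ⨆ _ : i + 1 + j ≤ k, D (n + 1) i ⊓ h68_h D r n j

theorem h68_isFn {D : ℕ → ℕ → B} (hD : IsFn Set.univ D) (r : ℕ) :
    IsFn Set.univ (h68_h D r) := by
  refine ⟨fun _ _ => Set.mem_univ _, fun n k => ?_, fun n => ?_⟩
  · cases n with
    | zero =>
      refine iSup₂_le fun i hi => ?_
      exact le_iSup₂ (f := fun (i : ℕ) (_ : i + 1 + r ≤ k + 1) => D 0 i) i (hi.trans (Nat.le_succ k))
    | succ n =>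
      refine iSup_le fun i => iSup₂_le fun j hj => ?_
      refine le_trans ?_ (le_iSup (fun i : ℕ => ⨆ j : ℕ, ⨆ _ : i + 1 + j ≤ k + 1,
        D (n + 1) i ⊓ h68_h D r n j) i)
      exact le_iSup₂ (f := fun (j : ℕ) (_ : i + 1 + j ≤ k + 1) => D (n + 1) i ⊓ h68_h D r n j) j
        (hj.trans (Nat.le_succ k))
  · induction n with
    | zero =>
      refine top_le_iff.1 ?_
      rw [← hD.tot 0]
      refine iSup_le fun i => ?_
      refine le_trans ?_ (le_iSup (h68_h D r 0) (i + 1 + r))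
      exact le_iSup₂ (f := fun (i' : ℕ) (_ : i' + 1 + r ≤ i + 1 + r) => D 0 i') i le_rfl
    | succ n ih =>
      refine top_le_iff.1 ?_
      have h1 : (⊤ : B) = (⨆ i, D (n + 1) i) ⊓ ⨆ j, h68_h D r n j := by
        rw [hD.tot (n + 1), ih, top_inf_eq]
      rw [h1, iSup_inf_eq]
      refine iSup_le fun i => ?_
      rw [inf_iSup_eq]
      refine iSup_le fun j => ?_
      refine le_trans ?_ (le_iSup (h68_h D r (n + 1)) (i + 1 + j))
      refine le_trans ?_ (le_iSup (fun i' : ℕ => ⨆ j' : ℕ, ⨆ _ : i' + 1 + j' ≤ i + 1 + j,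
        D (n + 1) i' ⊓ h68_h D r n j') i)
      exact le_iSup₂ (f := fun (j' : ℕ) (_ : i + 1 + j' ≤ i + 1 + j) =>
        D (n + 1) i ⊓ h68_h D r n j') j le_rfl

theorem exists_inc {B : Type u} [CompleteBooleanAlgebra B] (G : ℕ → B) (r : ℕ) :
    ∃ c : ℕ → B, incV c = ⊤ ∧ (∀ n k, decV c n k ≤ ⨆ i : ℕ, ⨆ _ : i < k, decV G n i) ∧
      ∀ k, k < r → decV c 0 k = ⊥ := by
  have hD : IsFn Set.univ (decV G) := decV_isFn G
  refine ⟨codV (h68_h (decV G) r), ?_, ?_, ?_⟩
  · unfold incV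
    rw [decV_codV (h68_isFn hD r), iInf_eq_top]
    intro m
    rw [iInf_eq_top]
    intro k
    rw [himp_eq_top_iff]
    refine iSup_le fun i => iSup₂_le fun j hj => ?_
    refine inf_le_right.trans ?_
    exact le_iSup₂ (f := fun (j : ℕ) (_ : j < k) => h68_h (decV G) r m j) j (by omega)
  · intro n k
    rw [decV_codV (h68_isFn hD r)]
    cases n with
    | zero =>
      refine iSup₂_le fun i hi => ?_
      exact le_iSup₂ (f := fun (j : ℕ) (_ : j < k) => decV G 0 j) i (by omega)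
    | succ n =>
      refine iSup_le fun i => iSup₂_le fun j hj => ?_
      refine inf_le_left.trans ?_
      exact le_iSup₂ (f := fun (j : ℕ) (_ : j < k) => decV G (n + 1) j) i (by omega)
  · intro k hk
    rw [decV_codV (h68_isFn hD r)]
    refine le_bot_iff.1 (iSup₂_le fun i hi => ?_)
    omega

theorem exists_cofinal_nat : ∃ r : Ordinal.{0} → ℕ, ∀ (β : Ordinal.{0}) (n : ℕ),
    ∃ γ, β ≤ γ ∧ r γ = n := by
  have h0 : (Ordinal.omega0 : Ordinal.{0}) ≠ 0 := Ordinal.omega0_ne_zero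
  choose r hr using fun γ : Ordinal.{0} => Ordinal.lt_omega0.1 (Ordinal.mod_lt γ h0)
  refine ⟨r, fun β n => ⟨Ordinal.omega0 * β + n, ?_, ?_⟩⟩
  · refine le_trans ?_ (le_self_add)
    exact Ordinal.le_mul_right β Ordinal.omega0_pos
  · have h1 := hr (Ordinal.omega0 * β + n)
    rw [Ordinal.mul_add_mod_self, Ordinal.mod_eq_of_lt (Ordinal.natCast_lt_omega0 n)] at h1
    exact_mod_cast h1.symm

end D

end Pool.Agent.Helper32.FR
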