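import Pool.Agent.Helper32.FR.Defs

/-!
# Project FR, module A4: the generic sets
-/

set_option autoImplicit false
set_option linter.unusedSectionVars false

namespace Pool.Agent.Helper32.FR

open Pool.Agent.Helper33.HM Pool.Agent.Helper94.BA

section A

variable {Ω : Type} [LinearOrder Ω]

theorem h68_mem_aN {x : Ω} {k : ℕ} {p : PB Ω} (hx : x ∈ p.down.d) (hk : k < p.down.n)
    (ha : p.down.a x k) : p ∈ aN x k :=
  RO.mem_gen.2 fun q hq => ⟨q, le_rfl, p, ⟨hx, hk, ha⟩, hq⟩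

theorem h68_of_mem_aN {x : Ω} {k : ℕ} {p : PB Ω} (h : p ∈ aN x k) :
    ∃ r : PB Ω, r ≤ p ∧ x ∈ r.down.d ∧ k < r.down.n ∧ r.down.a x k := by
  obtain ⟨r, hr, s, ⟨hx, hk, ha⟩, hrs⟩ := RO.mem_gen.1 h p le_rfl
  have hle : TC.Le r.down s.down := hrs
  exact ⟨r, hr, hle.1 hx, hk.trans_le hle.2.1, (hle.2.2.2.1 x hx k hk).2 ha⟩

theorem h68_mem_finV {P : Type 1} [Preorder P] {g : ℕ → RO P} {p : P} (m : ℕ)
    (h : ∀ q, q ≤ p → ∀ n, m ≤ n → ¬ q ∈ g n) : p ∈ finV g := by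
  refine RO.mem_iSup.2 fun q hq => ⟨q, le_rfl, m, ?_⟩
  refine RO.mem_iInf.2 fun n => RO.mem_iInf.2 fun hn => ?_
  exact RO.mem_compl.2 fun r hr => h r (hr.trans hq) n hn

theorem aN_dec {p : PB Ω} {x y : Ω} (hx : x ∈ p.down.d) (hy : y ∈ p.down.d)
    (h : p.down.R x y) : p ∈ finV ((aN y : ℕ → RO (PB Ω)) ⊓ (aN x)ᶜ) := by
  refine h68_mem_finV p.down.n fun q hq k hk hmem => ?_
  have h1 : q ∈ aN y k := hmem.1
  have h2 : q ∈ (aN x k)ᶜ := hmem.2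
  obtain ⟨r, hr, hyr, hkr, har⟩ := h68_of_mem_aN h1
  have hle : TC.Le r.down p.down := hr.trans hq
  refine RO.mem_compl.1 h2 r hr (h68_mem_aN (hle.1 hx) hkr ?_)
  exact (hle.2.2.2.2 x hx y hy k hk hkr).1 h har

theorem aN_ad {p : PB Ω} {x y : Ω} (hx : x ∈ p.down.d) (hy : y ∈ p.down.d)
    (h : ¬ p.down.Cmp x y) : p ∈ finV ((aN x : ℕ → RO (PB Ω)) ⊓ aN y) := by
  refine h68_mem_finV p.down.n fun q hq k hk hmem => ?_
  have h1 : q ∈ aN x k := hmem.1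
  have h2 : q ∈ aN y k := hmem.2
  obtain ⟨r, hr, hxr, hkr, har⟩ := h68_of_mem_aN h1
  obtain ⟨s, hs, hys, hks, has⟩ := h68_of_mem_aN (RO.mem_lower hr h2)
  have hsr : TC.Le s.down r.down := hs
  have hle : TC.Le s.down p.down := hs.trans (hr.trans hq)
  exact (hle.2.2.2.2 x hx y hy k hk hks).2 h ⟨(hsr.2.2.2.1 x hxr k hkr).2 har, has⟩

theorem h68_exists_ins (p : TC Ω) (x : Ω) : ∃ q : TC Ω, q ≤ p ∧ x ∈ q.d := by
  refine ⟨⟨insert x p.d, fun u v => u ∈ p.d ∧ v ∈ p.d ∧ p.R u v, p.n, p.a, ?_, ?_, ?_⟩,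
    ⟨Finset.subset_insert _ _, le_rfl, ?_, fun _ _ _ _ => Iff.rfl,
      fun _ _ _ _ _ h h' => absurd h' (not_lt.2 h)⟩, Finset.mem_insert_self _ _⟩
  · rintro u - v - ⟨hu, hv, h⟩
    exact p.lt u hu v hv h
  · rintro u - v - w - ⟨hu, hv, h⟩ ⟨-, hw, h'⟩
    exact ⟨hu, hw, p.trans u hu v hv w hw h h'⟩
  · rintro u - v - w - ⟨hu, hw, h⟩ ⟨hv, -, h'⟩
    rcases p.tree u hu v hv w hw h h' with h1 | h1 | h1
    · exact Or.inl h1
    · exact Or.inr (Or.inl ⟨hu, hv, h1⟩)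
    · exact Or.inr (Or.inr ⟨hv, hu, h1⟩)
  · intro u hu v hv
    exact ⟨fun h => h.2.2, fun h => ⟨hu, hv, h⟩⟩

theorem h68_exists_big (p : TC Ω) (x : Ω) (hx : x ∈ p.d) (m : ℕ) :
    ∃ q : TC Ω, q ≤ p ∧ x ∈ q.d ∧ ∃ k, m ≤ k ∧ k < q.n ∧ q.a x k := by
  refine ⟨⟨p.d, p.R, max p.n m + 1, fun z k => (k < p.n ∧ p.a z k) ∨
      (p.n ≤ k ∧ (z = x ∨ p.R z x)), p.lt, p.trans, p.tree⟩,
    ⟨subset_rfl, ?_, fun _ _ _ _ => Iff.rfl, ?_, ?_⟩, hx, max p.n m, le_max_right _ _,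
      Nat.lt_succ_self _, Or.inr ⟨le_max_left _ _, Or.inl rfl⟩⟩
  · exact (le_max_left p.n m).trans (Nat.le_succ _)
  · intro z _ k hk
    constructor
    · rintro (h | h)
      · exact h.2
      · exact absurd hk (not_lt.2 h.1)
    · exact fun h => Or.inl ⟨hk, h⟩
  · intro u hu v hv k hk _
    constructor
    · rintro huv (h | ⟨-, h⟩)
      · exact absurd h.1 (not_lt.2 hk)
      · right
        refine ⟨hk, Or.inr ?_⟩
        rcases h with rfl | h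
        · exact huv
        · exact p.trans u hu v hv x hx huv h
    · rintro hn ⟨h1 | ⟨-, h1⟩, h2 | ⟨-, h2⟩⟩
      · exact absurd h1.1 (not_lt.2 hk)
      · exact absurd h1.1 (not_lt.2 hk)
      · exact absurd h2.1 (not_lt.2 hk)
      · apply hn
        rcases h1 with rfl | h1
        · rcases h2 with rfl | h2
          · exact Or.inl rfl
          · exact Or.inr (Or.inr h2)
        · rcases h2 with rfl | h2
          · exact Or.inr (Or.inl h1)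
          · exact p.tree u hu v hv x hx h1 h2

theorem aN_inf (x : Ω) : finV (aN x : ℕ → RO (PB Ω)) = ⊥ := by
  by_contra hne
  obtain ⟨p, hp⟩ := RO.ne_bot_iff.1 hne
  obtain ⟨q, -, m, hq⟩ := RO.mem_iSup.1 hp p le_rfl
  obtain ⟨q1, h1, hx1⟩ := h68_exists_ins q.down x
  obtain ⟨q2, h2, hx2, k, hmk, hk, ha⟩ := h68_exists_big q1 x hx1 m
  have h3 : q ∈ (aN x k)ᶜ := RO.mem_iInf.1 (RO.mem_iInf.1 hq k) hmk
  have hle : (ULift.up q2 : PB Ω) ≤ q := show q2 ≤ q.down from h2.trans h1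
  exact RO.mem_compl.1 h3 (ULift.up q2) hle (h68_mem_aN (p := ULift.up q2) hx2 hk ha)

end A

end Pool.Agent.Helper32.FR
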